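import Pool.Agent.K9h29.NT.Defs
import Pool.Agent.N452.TF.Core

set_option autoImplicit false

/-! # Few subfunctions of networks and of circuits with shared bits -/

namespace Pool.Agent.K9h29.NT

open Finset Pool.Agent.N452.TF

variable {ι : Type} {D : ι → Type} {w q d : ℕ}

theorem accepts_ovr (F : Fml ι D w q d) (A : Set ι) (h : F.reads A = 0) (a z : ∀ i, D i) :
    F.accepts (ovr A a z) = F.accepts z := by
  unfold Fml.accepts
  rw [F.eval_ovr A h]

namespace Net

/-- The number of leaves which see a coordinate in `A`. -/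
noncomputable def reads (A : Set ι) (N : Net ι D w q d) : ℕ := ∑ k, (N.fml k).reads A

theorem sees_iff (A : Set ι) (N : Net ι D w q d) : N.Sees A ↔ N.reads A ≠ 0 := by
  simp only [Sees, reads, Fml.sees_iff, ne_eq, sum_eq_zero_iff, mem_univ, true_imp_iff, not_forall]

/-- The guarded edges whose formulas see a coordinate in `A`. -/
abbrev Live (A : Set ι) (N : Net ι D w q d) : Type := {k : Fin N.tests // (N.fml k).reads A ≠ 0}

theorem card_live (A : Set ι) (N : Net ι D w q d) : Fintype.card (N.Live A) ≤ N.reads A := by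
  rw [Fintype.card_subtype, card_filter]
  unfold reads
  apply sum_le_sum
  intro k _
  split_ifs with h <;> omega

open Classical in
theorem sum_reads_le {ζ : Type} (I : Finset ζ) (A : ζ → Set ι) (c : ι → ℕ)
    (hc : ∀ j, (I.filter (fun i => j ∈ A i)).card ≤ c j) (N : Net ι D w q d) :
    ∑ i ∈ I, N.reads (A i) ≤ N.size c := by
  unfold reads size
  rw [sum_comm]
  apply sum_le_sum
  intro k _
  exact (Fml.sum_reads_le I A c hc (N.fml k)).trans (by omega)

/-- the steps which do not see a coordinate in `A` -/
def Dead (A : Set ι) (N : Net ι D w q d) (z : ∀ i, D i) (u v : Fin N.nodes) : Prop :=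
  N.free u v ∨ ∃ k, (N.fml k).reads A = 0 ∧ N.src k = u ∧ N.dst k = v ∧
    (N.fml k).accepts z = true

theorem step_of_dead (A : Set ι) (N : Net ι D w q d) (a z : ∀ i, D i) {u v : Fin N.nodes}
    (h : N.Dead A z u v) : N.Step (ovr A a z) u v := by
  rcases h with h | ⟨k, h1, h2, h3, h4⟩
  · exact Or.inl h
  · exact Or.inr ⟨k, h2, h3, by rw [accepts_ovr _ _ h1]; exact h4⟩

/-- where the dead steps start: the start node or the head of a live edge -/
def tail (A : Set ι) (N : Net ι D w q d) : Option (N.Live A) → Fin N.nodes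
  | none => N.start
  | some k => N.dst k.1

/-- where the dead steps end: the end node or the tail of a live edge -/
def head (A : Set ι) (N : Net ι D w q d) : Option (N.Live A) → Fin N.nodes
  | none => N.stop
  | some k => N.src k.1

open Classical in
/-- the matrix of the dead steps -/
noncomputable def mat (A : Set ι) (N : Net ι D w q d) (z : ∀ i, D i) :
    Option (N.Live A) × Option (N.Live A) → Bool :=
  fun p => decide (Relation.ReflTransGen (N.Dead A z) (N.tail A p.1) (N.head A p.2))

theorem transfer (A : Set ι) (N : Net ι D w q d) (a z z' : ∀ i, D i)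
    (hm : N.mat A z = N.mat A z')
    (ht : ∀ k : N.Live A, (N.fml k.1).accepts (ovr A a z) = (N.fml k.1).accepts (ovr A a z'))
    (h : N.Accepts (ovr A a z)) : N.Accepts (ovr A a z') := by
  have hmono : ∀ {u v : Fin N.nodes}, Relation.ReflTransGen (N.Dead A z') u v →
      Relation.ReflTransGen (N.Step (ovr A a z')) u v := by
    intro u v h
    induction h with
    | refl => exact Relation.ReflTransGen.refl
    | tail _ h2 ih => exact ih.tail (N.step_of_dead A a z' h2)
  have hmat : ∀ x y, Relation.ReflTransGen (N.Dead A z) (N.tail A x) (N.head A y) →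
      Relation.ReflTransGen (N.Dead A z') (N.tail A x) (N.head A y) := by
    intro x y hxy
    have h1 := congrFun hm (x, y)
    unfold mat at h1
    rw [decide_eq_decide] at h1
    exact h1.1 hxy
  -- the invariant
  have key : ∀ v, Relation.ReflTransGen (N.Step (ovr A a z)) N.start v →
      ∃ x, Relation.ReflTransGen (N.Step (ovr A a z')) N.start (N.tail A x) ∧
        Relation.ReflTransGen (N.Dead A z) (N.tail A x) v := by
    intro v hv
    induction hv with
    | refl => exact ⟨none, Relation.ReflTransGen.refl, Relation.ReflTransGen.refl⟩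
    | @tail v v' _ hstep ih =>
      obtain ⟨x, hx1, hx2⟩ := ih
      rcases hstep with hf | ⟨k, hk1, hk2, hk3⟩
      · exact ⟨x, hx1, hx2.tail (Or.inl hf)⟩
      · by_cases hr : (N.fml k).reads A = 0
        · rw [accepts_ovr _ _ hr] at hk3
          exact ⟨x, hx1, hx2.tail (Or.inr ⟨k, hr, hk1, hk2, hk3⟩)⟩
        · refine ⟨some ⟨k, hr⟩, ?_, ?_⟩
          · have h2 : Relation.ReflTransGen (N.Dead A z) (N.tail A x)
                (N.head A (some ⟨k, hr⟩)) := by
              change Relation.ReflTransGen (N.Dead A z) (N.tail A x) (N.src k)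
              rw [hk1]
              exact hx2
            have h3 := hx1.trans (hmono (hmat _ _ h2))
            refine h3.tail (Or.inr ⟨k, rfl, rfl, ?_⟩)
            rw [← ht ⟨k, hr⟩]
            exact hk3
          · change Relation.ReflTransGen (N.Dead A z) (N.dst k) v'
            rw [hk2]
  obtain ⟨x, hx1, hx2⟩ := key _ h
  exact hx1.trans (hmono (hmat x none hx2))

/-- The value does not depend on coordinates which are not seen. -/
theorem eval_ovr (A : Set ι) (a z : ∀ i, D i) (N : Net ι D w q d) (h : N.reads A = 0) :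
    N.eval (ovr A a z) = N.eval z := by
  have h1 : ∀ k, (N.fml k).reads A = 0 := by
    intro k
    have := (sum_eq_zero_iff (s := univ) (f := fun k => (N.fml k).reads A)).1 h
    exact this k (mem_univ k)
  have h2 : N.Step (ovr A a z) = N.Step z := by
    funext u v
    unfold Step
    simp only [accepts_ovr _ _ (h1 _)]
  unfold eval Accepts
  rw [h2]

open Classical in
/-- Few subfunctions. -/
theorem subfunctions {Y : Type} [Fintype Y] (A : Set ι) (a : Y → ∀ i, D i) (c : ι → ℕ)
    (hc : ∀ j ∈ A, 1 ≤ c j) (s M E : ℕ) (hq : 1 ≤ q)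
    (hM : 4 * Fintype.card Y * (3 * s + 1) + 2 + s ≤ M)
    (hE : E = 2 * M ^ (d ^ 2 + 4 * d + 2) * q ^ (w - 1)) (N : Net ι D w q d)
    (hs : N.size c ≤ s) :
    ∃ S : Finset (Y → Bool), S.card ≤ 2 ^ (N.reads A + 1) ^ 2 * (2 * E ^ 2) ^ N.reads A ∧
      ∀ z : (∀ i, D i), (fun u => N.eval (ovr A (a u) z)) ∈ S := by
  obtain ⟨-, -, hE1⟩ := Fml.base_bound (M := M) (B := E) (q := q) (w := w) (d := d)
    (by omega) hq hE
  have hsk : ∀ k, (N.fml k).size c ≤ s := by
    intro k
    have h1 : (N.fml k).size c + 1 ≤ N.size c := by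
      unfold size
      exact single_le_sum (f := fun k => (N.fml k).size c + 1) (fun _ _ => Nat.zero_le _)
        (mem_univ k)
    omega
  choose S hS1 hS2 using fun k : N.Live A =>
    (N.fml k.1).subfunctions A a c hc s M E hq hM hE (hsk k.1)
  obtain ⟨Φ, hΦ⟩ : ∃ Φ : (∀ i, D i) → (Option (N.Live A) × Option (N.Live A) → Bool) ×
      ((k : N.Live A) → {f : Y → Bool // f ∈ S k}), ∀ z, Φ z = (N.mat A z, fun k =>
        ⟨fun v => (N.fml k.1).accepts (ovr A (a v) z), hS2 k z⟩) := ⟨_, fun _ => rfl⟩
  refine ⟨univ.image (fun c => if h : ∃ z, Φ z = c then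
    (fun v => N.eval (ovr A (a v) h.choose)) else fun _ => false), ?_, fun z => ?_⟩
  · refine card_image_le.trans ?_
    rw [card_univ, Fintype.card_prod, Fintype.card_fun, Fintype.card_prod, Fintype.card_option,
      Fintype.card_bool, Fintype.card_pi]
    simp only [Fintype.card_coe]
    have hl := N.card_live A
    apply Nat.mul_le_mul
    · apply Nat.pow_le_pow_right (by norm_num)
      rw [sq]
      exact Nat.mul_le_mul (by omega) (by omega)
    · calc ∏ k : N.Live A, (S k).card ≤ ∏ k : N.Live A, (2 * E ^ 2) ^ (N.fml k.1).reads A := by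
            apply prod_le_prod'
            intro k _
            refine (hS1 k).trans ?_
            rw [mul_pow, ← pow_mul]
            apply Nat.mul_le_mul_right
            calc 2 = 2 ^ 1 := rfl
              _ ≤ 2 ^ (N.fml k.1).reads A := Nat.pow_le_pow_right (by norm_num) (by
                have := k.2
                omega)
        _ = (2 * E ^ 2) ^ (∑ k : N.Live A, (N.fml k.1).reads A) := by rw [prod_pow_eq_pow_sum]
        _ ≤ (2 * E ^ 2) ^ N.reads A := by
            apply Nat.pow_le_pow_right
            · have : 1 ≤ E ^ 2 := Nat.one_le_pow _ _ hE1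
              omega
            · unfold reads
              have e : ∑ k : N.Live A, (N.fml k.1).reads A =
                  ∑ k ∈ univ.filter (fun k => (N.fml k).reads A ≠ 0), (N.fml k).reads A := by
                rw [← Finset.sum_subtype_eq_sum_filter, Finset.subtype_univ]
              rw [e]
              exact sum_le_sum_of_subset (filter_subset _ _)
  · rw [mem_image]
    refine ⟨Φ z, mem_univ _, ?_⟩
    have hex : ∃ z', Φ z' = Φ z := ⟨z, rfl⟩
    rw [dif_pos hex]
    obtain ⟨z', hz'⟩ : ∃ z', z' = hex.choose := ⟨_, rfl⟩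
    have h1 : Φ z' = Φ z := by rw [hz']; exact hex.choose_spec
    rw [← hz']
    rw [hΦ, hΦ, Prod.mk.injEq] at h1
    obtain ⟨h2, h3⟩ := h1
    funext v
    have h4 : ∀ k : N.Live A, (N.fml k.1).accepts (ovr A (a v) z') =
        (N.fml k.1).accepts (ovr A (a v) z) := by
      intro k
      have h5 := congrFun h3 k
      rw [Subtype.mk.injEq] at h5
      exact congrFun h5 v
    unfold eval
    rw [decide_eq_decide]
    exact ⟨N.transfer A (a v) z' z h2 h4, N.transfer A (a v) z z' h2.symm fun k => (h4 k).symm⟩

end Net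

namespace Circ

/-- The number of leaves which see the item `i` or a bit which depends on it. -/
noncomputable def reads (i : ι) : {m : ℕ} → Circ ι D w q d m → ℕ
  | _, nil => 0
  | _, snoc C N => C.reads i + N.reads (C.Dep i)

theorem inl_mem_dep (i j : ι) : ∀ {m : ℕ} (C : Circ ι D w q d m), Sum.inl j ∈ C.Dep i ↔ j = i
  | _, nil => by
      simp [Dep]
  | _, snoc C N => by
      constructor
      · rintro (h | ⟨k, h, -⟩ | ⟨h, -⟩)
        · exact Sum.inl.inj h
        · cases h
        · cases h
      · rintro rfl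
        exact Or.inl rfl

theorem castSucc_mem_dep (i : ι) {m : ℕ} (C : Circ ι D w q d m)
    (N : Net (ι ⊕ Fin m) (Ext D m) w q d) (j : Fin m) :
    Sum.inr j.castSucc ∈ (snoc C N).Dep i ↔ Sum.inr j ∈ C.Dep i := by
  constructor
  · rintro (h | ⟨k, h, h2⟩ | ⟨h, -⟩)
    · cases h
    · have h3 := Sum.inr.inj h
      rw [Fin.castSucc_inj.1 h3]
      exact h2
    · exact absurd (Sum.inr.inj h) (Fin.castSucc_lt_last j).ne
  · intro h
    exact Or.inr (Or.inl ⟨j, rfl, h⟩)

theorem last_mem_dep (i : ι) {m : ℕ} (C : Circ ι D w q d m)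
    (N : Net (ι ⊕ Fin m) (Ext D m) w q d) :
    Sum.inr (Fin.last m) ∈ (snoc C N).Dep i ↔ N.Sees (C.Dep i) := by
  constructor
  · rintro (h | ⟨k, h, -⟩ | ⟨-, h⟩)
    · cases h
    · exact absurd (Sum.inr.inj h) (Fin.castSucc_lt_last k).ne'
    · exact h
  · intro h
    exact Or.inr (Or.inr ⟨rfl, h⟩)

open Classical in
theorem sum_reads_le (I : Finset ι) : ∀ {m : ℕ} (C : Circ ι D w q d m),
    ∑ i ∈ I, C.reads i ≤ C.cost I
  | _, nil => by simp [reads]
  | _, snoc C N => by
      simp only [reads, cost, sum_add_distrib]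
      have h1 := sum_reads_le I C
      have h2 := Net.sum_reads_le I (fun i => C.Dep i) (C.price I) (fun j => le_rfl) N
      omega

/-- Bits which do not depend on an item. -/
theorem val_of_not_dep [DecidableEq ι] (i : ι) (e : D i) (z : ∀ i, D i) :
    ∀ {m : ℕ} (C : Circ ι D w q d m) (j : Fin m), Sum.inr j ∉ C.Dep i →
      C.val (Function.update z i e) j = C.val z j
  | _, nil, j, _ => j.elim0
  | _, snoc (m := m) C N, j, h => by
      revert h
      refine Fin.lastCases (fun h => ?_) (fun k h => ?_) j
      · rw [last_mem_dep, Net.sees_iff, not_not] at h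
        simp only [val, Fin.lastCases_last]
        have e1 : ext (Function.update z i e) (C.val (Function.update z i e)) =
            ovr (C.Dep i) (ext (Function.update z i e) (C.val (Function.update z i e)))
              (ext z (C.val z)) := by
          funext a
          by_cases ha : a ∈ C.Dep i
          · rw [ovr_of_mem ha]
          · rw [ovr_of_not ha]
            rcases a with a | a
            · have h2 : a ≠ i := fun h2 => ha ((inl_mem_dep i a C).2 h2)
              exact Function.update_of_ne h2 _ _
            · exact val_of_not_dep i e z C a ha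
        rw [e1, Net.eval_ovr _ _ _ _ h]
      · simp only [val, Fin.lastCases_castSucc]
        exact val_of_not_dep i e z C k (fun h2 => h ((castSucc_mem_dep i C N k).2 h2))

/-- the exponents -/
theorem expo {E R r : ℕ} (hr : 1 ≤ r) (hE : 1 ≤ E) :
    2 ^ (4 * R ^ 2) * (2 * E ^ 2) ^ R * (2 ^ (r + 1) ^ 2 * (2 * E ^ 2) ^ r) ≤
      2 ^ (4 * (R + r) ^ 2) * (2 * E ^ 2) ^ (R + r) := by
  have h1 : 2 ^ (4 * R ^ 2) * (2 * E ^ 2) ^ R * (2 ^ (r + 1) ^ 2 * (2 * E ^ 2) ^ r) =
      2 ^ (4 * R ^ 2 + (r + 1) ^ 2) * (2 * E ^ 2) ^ (R + r) := by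
    rw [pow_add, pow_add]
    ring
  rw [h1]
  apply Nat.mul_le_mul_right
  apply Nat.pow_le_pow_right (by norm_num)
  nlinarith [Nat.zero_le (R * r)]

open Classical in
/-- The functions of item `i` which are computed by the bits belong to a small family. -/
theorem families [DecidableEq ι] {Y : Type} [Fintype Y] (I : Finset ι) (i : ι) (hi : i ∈ I)
    (y : Y → D i) (z0 : ∀ i, D i) (s M E : ℕ) (hq : 1 ≤ q)
    (hM : 4 * Fintype.card Y * (3 * s + 1) + 2 + s ≤ M)
    (hE : E = 2 * M ^ (d ^ 2 + 4 * d + 2) * q ^ (w - 1)) :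
    ∀ {m : ℕ} (C : Circ ι D w q d m), C.cost I ≤ s →
    ∃ 𝒮 : Finset (Y → Fin m → Bool),
      𝒮.card ≤ 2 ^ (4 * (C.reads i) ^ 2) * (2 * E ^ 2) ^ C.reads i ∧
      ∀ z : (∀ i, D i), ∃ t ∈ 𝒮, ∀ j : Fin m, Sum.inr j ∈ C.Dep i →
        ∀ u, C.val (Function.update z i (y u)) j = t u j
  | _, nil, _ => by
      refine ⟨{fun _ j => j.elim0}, ?_, fun z => ⟨_, mem_singleton_self _, fun j => j.elim0⟩⟩
      simp [reads]
  | _, snoc (m := m) C N, hs => by
      obtain ⟨-, -, hE1⟩ := Fml.base_bound (M := M) (B := E) (q := q) (w := w) (d := d)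
        (by omega) hq hE
      simp only [cost] at hs
      obtain ⟨𝒮, hcard, hS⟩ := families I i hi y z0 s M E hq hM hE C (by omega)
      by_cases hP : N.reads (C.Dep i) = 0
      · refine ⟨𝒮.image (fun t => fun u => Fin.lastCases (motive := fun _ => Bool) false
          (fun j => t u j)), ?_, fun z => ?_⟩
        · simp only [reads, hP, add_zero]
          exact card_image_le.trans hcard
        · obtain ⟨t, ht, hv⟩ := hS z
          refine ⟨_, mem_image_of_mem _ ht, fun j => ?_⟩
          refine Fin.lastCases (fun h => ?_) (fun k h => ?_) j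
          · rw [last_mem_dep, Net.sees_iff] at h
            exact absurd hP h
          · intro u
            simp only [val, Fin.lastCases_castSucc]
            exact hv k ((castSucc_mem_dep i C N k).1 h) u
      · -- the values of the coordinates which depend on the item
        obtain ⟨a, ha⟩ : ∃ a : (Y → Fin m → Bool) → Y → ∀ x, Ext D m x, a = fun t u =>
          ext (Function.update z0 i (y u)) (t u) := ⟨_, rfl⟩
        have hc : ∀ j ∈ C.Dep i, 1 ≤ C.price I j := by
          intro j hj
          exact card_pos.2 ⟨i, mem_filter.2 ⟨hi, hj⟩⟩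
        choose S hS1 hS2 using fun t => Net.subfunctions (C.Dep i) (a t) (C.price I) hc s M E
          hq hM hE N (by omega)
        refine ⟨𝒮.biUnion (fun t => (S t).image (fun p => fun u =>
          Fin.lastCases (motive := fun _ => Bool) (p u) (fun j => t u j))), ?_, fun z => ?_⟩
        · refine card_biUnion_le.trans ?_
          calc ∑ t ∈ 𝒮, ((S t).image (fun p => fun u =>
                Fin.lastCases (motive := fun _ => Bool) (p u) (fun j => t u j))).card
              ≤ ∑ _t ∈ 𝒮, 2 ^ (N.reads (C.Dep i) + 1) ^ 2 *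
                  (2 * E ^ 2) ^ N.reads (C.Dep i) := by
                apply sum_le_sum
                intro t _
                exact card_image_le.trans (hS1 t)
            _ = 𝒮.card * (2 ^ (N.reads (C.Dep i) + 1) ^ 2 *
                  (2 * E ^ 2) ^ N.reads (C.Dep i)) := by
                rw [sum_const, smul_eq_mul]
            _ ≤ 2 ^ (4 * (C.reads i) ^ 2) * (2 * E ^ 2) ^ C.reads i *
                (2 ^ (N.reads (C.Dep i) + 1) ^ 2 * (2 * E ^ 2) ^ N.reads (C.Dep i)) :=
                Nat.mul_le_mul_right _ hcard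
            _ ≤ _ := expo (by omega) hE1
        · obtain ⟨t, ht, hv⟩ := hS z
          refine ⟨_, mem_biUnion.2 ⟨t, ht, mem_image_of_mem _ (hS2 t (ext z (C.val z)))⟩,
            fun j => ?_⟩
          refine Fin.lastCases (fun h => ?_) (fun k h => ?_) j
          · intro u
            simp only [val, Fin.lastCases_last]
            congr 1
            funext x
            by_cases hx : x ∈ C.Dep i
            · rw [ovr_of_mem hx, ha]
              rcases x with x | x
              · have h2 : x = i := (inl_mem_dep i x C).1 hx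
                subst h2
                simp only [Pool.Agent.N452.TF.ext, Function.update_self]
              · exact hv x hx u
            · rw [ovr_of_not hx]
              rcases x with x | x
              · have h2 : x ≠ i := fun h2 => hx ((inl_mem_dep i x C).2 h2)
                exact Function.update_of_ne h2 _ _
              · exact val_of_not_dep i _ z C x hx
          · intro u
            simp only [val, Fin.lastCases_castSucc]
            exact hv k ((castSucc_mem_dep i C N k).1 h) u

end Circ

open Classical in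
/-- Few subfunctions. -/
theorem Circuit.subfunctions [DecidableEq ι] {Y : Type} [Fintype Y] (I : Finset ι) (i : ι)
    (hi : i ∈ I) (y : Y → D i) (s M E : ℕ) (hq : 1 ≤ q)
    (hM : 4 * Fintype.card Y * (3 * s + 1) + 2 + s ≤ M)
    (hE : E = 2 * M ^ (d ^ 2 + 4 * d + 2) * q ^ (w - 1)) (C : Circuit ι D w q d)
    (hs : C.circ.cost I ≤ s) :
    ∃ S : Finset (Y → Bool), S.card ≤ 2 * (2 ^ (4 * (C.circ.reads i) ^ 2) *
        (2 * E ^ 2) ^ C.circ.reads i) ∧
      ∀ z : (∀ i, D i), (fun u => C.eval (Function.update z i (y u))) ∈ S := by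
  obtain ⟨-, -, hE1⟩ := Fml.base_bound (M := M) (B := E) (q := q) (w := w) (d := d)
    (by omega) hq hE
  have hpos : 1 ≤ 2 ^ (4 * (C.circ.reads i) ^ 2) * (2 * E ^ 2) ^ C.circ.reads i :=
    Nat.one_le_iff_ne_zero.2 (by positivity)
  by_cases hne : Nonempty (∀ i, D i)
  · obtain ⟨z0⟩ := hne
    by_cases hd : Sum.inr (Fin.last _) ∈ C.circ.Dep i
    · obtain ⟨𝒮, hcard, hS⟩ := Circ.families I i hi y z0 s M E hq hM hE C.circ hs
      refine ⟨𝒮.image (fun t => fun u => t u (Fin.last _)), ?_, fun z => ?_⟩
      · refine card_image_le.trans (hcard.trans ?_)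
        omega
      · obtain ⟨t, ht, hv⟩ := hS z
        refine mem_image.2 ⟨t, ht, ?_⟩
        funext u
        exact (hv _ hd u).symm
    · refine ⟨(univ : Finset Bool).image (fun c => fun _ => c), ?_, fun z => ?_⟩
      · refine card_image_le.trans ?_
        rw [card_univ, Fintype.card_bool]
        omega
      · rw [mem_image]
        refine ⟨C.eval z, mem_univ _, ?_⟩
        funext u
        exact (Circ.val_of_not_dep i (y u) z C.circ _ hd).symm
  · refine ⟨∅, by simp, fun z => absurd ⟨z⟩ hne⟩

end Pool.Agent.K9h29.NT
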