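import Pool.Agent.N452.TF.Defs

set_option autoImplicit false

/-! # Nondeterministic networks which test formulas of bilinear maps, and circuits of shared bits
which are computed by such networks -/

namespace Pool.Agent.K9h29.NT

open Finset Pool.Agent.N452.TF

/-- A network (nondeterministic branching program, directed cycles are allowed): `nodes` nodes with a
start node and an end node, free edges, and `tests` edges which are guarded by formulas of bilinear
maps of real vectors of dimension `d`. -/
structure Net (ι : Type) (D : ι → Type) (w q d : ℕ) where
  /-- number of nodes -/
  nodes : ℕ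
  start : Fin nodes
  stop : Fin nodes
  /-- the free edges -/
  free : Fin nodes → Fin nodes → Prop
  /-- number of guarded edges -/
  tests : ℕ
  src : Fin tests → Fin nodes
  dst : Fin tests → Fin nodes
  fml : Fin tests → Fml ι D w q d

namespace Net

variable {ι : Type} {D : ι → Type} {w q d : ℕ}

/-- An edge which may be used on the input `x`: a free edge, or a guarded edge whose formula accepts
the input. -/
def Step (N : Net ι D w q d) (x : ∀ i, D i) (u v : Fin N.nodes) : Prop :=
  N.free u v ∨ ∃ k, N.src k = u ∧ N.dst k = v ∧ (N.fml k).accepts x = true

/-- The input is accepted if some path leads from the start node to the end node. -/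
def Accepts (N : Net ι D w q d) (x : ∀ i, D i) : Prop :=
  Relation.ReflTransGen (N.Step x) N.start N.stop

open Classical in
/-- The result of the computation. -/
noncomputable def eval (N : Net ι D w q d) (x : ∀ i, D i) : Bool := decide (N.Accepts x)

/-- The size, if a reading of the coordinate `i` costs `c i`: the number of the guarded edges plus the
sizes of their formulas (the nodes and the free edges are not counted). -/
def size (c : ι → ℕ) (N : Net ι D w q d) : ℕ := ∑ k, ((N.fml k).size c + 1)

/-- Does some leaf see a coordinate in the set `A`? -/
def Sees (A : Set ι) (N : Net ι D w q d) : Prop := ∃ k, (N.fml k).Sees A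

end Net

/-- Circuits with `m` shared bits: every bit is computed by a network from the items and the bits
before it. -/
inductive Circ (ι : Type) (D : ι → Type) (w q d : ℕ) : ℕ → Type
  | nil : Circ ι D w q d 0
  | snoc : {m : ℕ} → Circ ι D w q d m → Net (ι ⊕ Fin m) (Ext D m) w q d → Circ ι D w q d (m + 1)

namespace Circ

variable {ι : Type} {D : ι → Type} {w q d : ℕ}

/-- The values of the bits. -/
noncomputable def val : {m : ℕ} → Circ ι D w q d m → (∀ i, D i) → Fin m → Bool
  | _, nil, _ => fun j => j.elim0
  | _, snoc C N, x => Fin.lastCases (motive := fun _ => Bool) (N.eval (ext x (C.val x)))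
      (fun j => C.val x j)

/-- The items and bits which depend on the item `i`: the item itself, and the bits whose networks
see the item or an earlier bit which depends on it. -/
def Dep (i : ι) : {m : ℕ} → Circ ι D w q d m → Set (ι ⊕ Fin m)
  | _, nil => {Sum.inl i}
  | _, snoc (m := m) C N => fun a => a = Sum.inl i ∨
      (∃ j : Fin m, a = Sum.inr j.castSucc ∧ Sum.inr j ∈ Dep i C) ∨
      (a = Sum.inr (Fin.last m) ∧ N.Sees (Dep i C))

open Classical in
/-- The price of an item or a bit: the number of the items in `I` on which it depends. -/
noncomputable def price (I : Finset ι) {m : ℕ} (C : Circ ι D w q d m) (a : ι ⊕ Fin m) : ℕ :=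
  (I.filter (fun i => a ∈ C.Dep i)).card

/-- The cost: the guarded edges of all networks, the wires which lead to gates `sym`, and the
prices of all items and bits which are seen by the leaves. -/
noncomputable def cost (I : Finset ι) : {m : ℕ} → Circ ι D w q d m → ℕ
  | _, nil => 0
  | _, snoc C N => C.cost I + N.size (C.price I)

end Circ

/-- A circuit whose last bit is the output. -/
structure Circuit (ι : Type) (D : ι → Type) (w q d : ℕ) where
  /-- number of shared bits before the output -/
  bits : ℕ
  circ : Circ ι D w q d (bits + 1)

/-- The output of the circuit. -/
noncomputable def Circuit.eval {ι : Type} {D : ι → Type} {w q d : ℕ} (C : Circuit ι D w q d)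
    (x : ∀ i, D i) : Bool :=
  C.circ.val x (Fin.last _)

end Pool.Agent.K9h29.NT
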