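import Pool.Agent.K9h29.NT.Lower
import Pool.Agent.N452.TF.ThreeSum
import Pool.Agent.Y638.RF.NetZeroSum

set_option autoImplicit false

/-! # 3SUM and circuits of networks -/

namespace Pool.Agent.K9h29.NT

open Finset Pool.Agent.TH697.Form Pool.Agent.TH697.Row Pool.Agent.TH697.Form.ThreeSum
open Pool.Agent.TH457.Ary.ZeroSum Pool.Agent.TH457.Ary.ThreeSum Pool.Agent.Y638.RF
open Pool.Agent.N452.TF.Xor (pairs)

variable {n c w d : ℕ}

/-- the arithmetic -/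
theorem arith {n g c w d L l s : ℝ} (hn : 0 ≤ n) (hg : 8 ≤ g) (hc : 1 ≤ c) (hw : 1 ≤ w)
    (hd : 1 ≤ d) (hl : l ≤ 9 / 8 * g) (hL : L ≤ 4 / 3 * c * g) (hs : 0 ≤ s)
    (h : n * (n * g * (1 / 7)) ≤ 4000 * (Real.sqrt (n * g * (1 / 7)) +
      (3 + (2 * d ^ 2 + 8 * d + 4) * (5 * l) + 2 * (w - 1) * L)) * s) :
    n ^ 2 ≤ 4000 * (Real.sqrt n + 600 * (w * c + d ^ 2)) * s := by
  have h1 : Real.sqrt (n * g * (1 / 7)) ≤ 1 / 7 * g * Real.sqrt n :=
    sqrt_mul_le hn (by linarith) (by norm_num) (by norm_num) (by linarith)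
  have hd2 : 1 ≤ d ^ 2 := by nlinarith
  have h2 : 3 + (2 * d ^ 2 + 8 * d + 4) * (5 * l) + 2 * (w - 1) * L ≤
      80 * (w * c + d ^ 2) * g := by
    have h3 : (w - 1) * L ≤ (w - 1) * (4 / 3 * c * g) := mul_le_mul_of_nonneg_left hL (by linarith)
    have h5 : 2 * d ^ 2 + 8 * d + 4 ≤ 14 * d ^ 2 := by nlinarith
    have h6 : (2 * d ^ 2 + 8 * d + 4) * (5 * l) ≤ 14 * d ^ 2 * (5 * (9 / 8 * g)) := by
      have h11 : 0 ≤ 2 * d ^ 2 + 8 * d + 4 := by positivity
      calc (2 * d ^ 2 + 8 * d + 4) * (5 * l) ≤ (2 * d ^ 2 + 8 * d + 4) * (5 * (9 / 8 * g)) :=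
            mul_le_mul_of_nonneg_left (by linarith) h11
        _ ≤ _ := mul_le_mul_of_nonneg_right h5 (by linarith)
    have h7 : g ≤ d ^ 2 * g := by nlinarith
    have h8 : 0 ≤ c * g := by positivity
    have h9 : 0 ≤ w * (c * g) := by positivity
    have h10 : (w - 1) * (4 / 3 * c * g) ≤ 4 / 3 * (w * (c * g)) := by nlinarith
    nlinarith
  have h3 : n * (n * g * (1 / 7)) ≤ 4000 * (1 / 7 * g * Real.sqrt n +
      80 * (w * c + d ^ 2) * g) * s := by
    refine h.trans ?_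
    apply mul_le_mul_of_nonneg_right _ hs
    apply mul_le_mul_of_nonneg_left _ (by norm_num)
    linarith
  have h4 : g * n ^ 2 ≤ g * (4000 * (Real.sqrt n + 560 * (w * c + d ^ 2)) * s) := by
    have e1 : n * (n * g * (1 / 7)) = g * n ^ 2 / 7 := by ring
    have e2 : 4000 * (1 / 7 * g * Real.sqrt n + 80 * (w * c + d ^ 2) * g) * s =
        g * (4000 * (Real.sqrt n + 560 * (w * c + d ^ 2)) * s) / 7 := by ring
    rw [e1, e2] at h3
    linarith
  have h5 := le_of_mul_le_mul_left h4 (by linarith)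
  refine h5.trans ?_
  apply mul_le_mul_of_nonneg_right _ hs
  apply mul_le_mul_of_nonneg_left _ (by norm_num)
  have : 0 ≤ w * c + d ^ 2 := by positivity
  linarith

theorem zero_sum (hn : 1000 ≤ n) (hc : 1 ≤ c) (hw : 1 ≤ w) (hd : 1 ≤ d)
    {Ω : Type} [Fintype Ω] (μ : Ω → ℝ) (hμ : IsProb μ)
    (F : Ω → Circuit (Option (Fin n)) (Item n n) w ((2 * n) ^ c) d)
    (hF : ApproximatesOn μ (fun ω => (F ω).eval) (Valid n n) (zeroSum n) ∨
      ApproximatesOn μ (fun ω x => !(F ω).eval x) (Valid n n) (zeroSum n)) :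
    (n : ℝ) ^ 2 ≤ 4000 * (Real.sqrt n + 600 * (w * c + (d : ℝ) ^ 2)) * mean μ F (pairs n) := by
  classical
  obtain ⟨s, hs⟩ : ∃ s, s = n ^ 2 := ⟨_, rfl⟩
  obtain ⟨E, hE⟩ : ∃ E, E = mean μ F (pairs n) := ⟨_, rfl⟩
  have hw' : (1 : ℝ) ≤ w := by exact_mod_cast hw
  have hc' : (1 : ℝ) ≤ c := by exact_mod_cast hc
  have hd' : (1 : ℝ) ≤ d := by exact_mod_cast hd
  have hE0 : 0 ≤ E := by
    rw [hE]
    exact sum_nonneg fun ω _ => mul_nonneg (hμ.nonneg ω) (Nat.cast_nonneg _)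
  rw [← hE]
  by_cases hsn : (n : ℝ) ^ 2 ≤ 80 * E
  · have h2 : (1 : ℝ) ≤ w * c := by nlinarith
    have h0 : 0 ≤ Real.sqrt n := Real.sqrt_nonneg _
    have h3 : (80 : ℝ) ≤ 4000 * (Real.sqrt n + 600 * (w * c + (d : ℝ) ^ 2)) := by nlinarith
    exact hsn.trans (mul_le_mul_of_nonneg_right h3 hE0)
  have hbig : ∑ ω ∈ univ.filter (fun ω => s < (F ω).circ.cost (pairs n)), μ ω ≤ 1 / 80 := by
    have h1 : (∑ ω ∈ univ.filter (fun ω => s < (F ω).circ.cost (pairs n)), μ ω) * (n : ℝ) ^ 2 ≤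
        E := by
      rw [hE, sum_mul]
      unfold mean
      calc ∑ ω ∈ univ.filter (fun ω => s < (F ω).circ.cost (pairs n)), μ ω * (n : ℝ) ^ 2
          ≤ ∑ ω ∈ univ.filter (fun ω => s < (F ω).circ.cost (pairs n)),
              μ ω * ((F ω).circ.cost (pairs n) : ℝ) := by
            apply sum_le_sum
            intro ω hω
            rw [mem_filter, hs] at hω
            apply mul_le_mul_of_nonneg_left _ (hμ.nonneg ω)
            exact_mod_cast hω.2.le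
        _ ≤ _ := sum_le_sum_of_subset_of_nonneg (subset_univ _) (fun ω _ _ =>
              mul_nonneg (hμ.nonneg ω) (Nat.cast_nonneg _))
    push Not at hsn
    have h2 : (0 : ℝ) < (n : ℝ) ^ 2 := by
      have : 0 < n := by omega
      positivity
    by_contra hcon
    push Not at hcon
    nlinarith
  obtain ⟨b, hb, hL, hb2⟩ := params (n := n) (by omega)
  have hM : 4 * n ^ 2 * (3 * s + 1) + 2 + s ≤ n ^ 5 := by
    have h2 : 4 * n ^ 2 * (3 * s + 1) = 12 * n ^ 4 + 4 * n ^ 2 := by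
      rw [hs]
      ring
    have h4 : n ^ 2 * 1000 ^ 2 ≤ n ^ 4 := by
      calc n ^ 2 * 1000 ^ 2 ≤ n ^ 2 * n ^ 2 := Nat.mul_le_mul_left _ (Nat.pow_le_pow_left hn 2)
        _ = n ^ 4 := by ring
    have h5 : 16 * n ^ 4 ≤ n ^ 5 := by
      calc 16 * n ^ 4 ≤ n * n ^ 4 := Nat.mul_le_mul_right _ (by omega)
        _ = n ^ 5 := by ring
    have h6 : 1 ≤ n ^ 4 := Nat.one_le_pow _ _ (by omega)
    omega
  have hg : (8 : ℝ) ≤ Nat.log 2 n := by exact_mod_cast hL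
  have hn' : (1000 : ℝ) ≤ n := by exact_mod_cast hn
  have h := net_bound_le μ hμ F (Valid n n) (zeroSum n) hF s (pairs n) hbig
    (Nat.one_le_pow _ _ (by omega)) hw (n ^ 2) (n ^ 5) hM 0 (by norm_num)
    (T := Fin (n / 2) × Fin b) (by
      intro a ha
      unfold pairs at ha
      rw [mem_map] at ha
      obtain ⟨i, -, rfl⟩ := ha
      exact ZeroSum.asks hb (by omega) i) ((n : ℝ) * (Nat.log 2 n : ℕ) * (1 / 7)) (by nlinarith) (by
      have := card_T (n := n) (by omega) hb2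
      linarith)
  rw [← hE] at h
  unfold pairs LL at h
  rw [card_map, card_univ, Fintype.card_fin, Nat.cast_pow n 5, Real.logb_pow] at h
  push_cast at h
  refine arith (l := Real.logb 2 n) (L := Real.logb 2 (((2 * n) ^ c : ℕ) : ℝ))
    (g := Nat.log 2 n) (Nat.cast_nonneg n) hg hc' hw' hd' ?_ (logb_q (by omega) hL) hE0 ?_
  · have h1 := logb_n (n := n) (by omega)
    linarith
  · push_cast
    exact h

end Pool.Agent.K9h29.NT
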