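import Pool.Agent.K9h29.NT.Core
import Pool.Agent.Y638.RF.NetGen

set_option autoImplicit false

/-! # Lower bounds for random circuits of networks -/

namespace Pool.Agent.K9h29.NT

open Finset Pool.Agent.TH697.Form Pool.Agent.TH697.Row Pool.Agent.Y638.RF
open Pool.Agent.N452.TF (Fml.base_bound)

variable {ι : Type} {D : ι → Type} [DecidableEq ι] {T : Type} [Fintype T] {Ω : Type} [Fintype Ω]
  {w q d : ℕ}

/-- the logarithm of the number of functions for one reading -/
noncomputable def LL (d w q M : ℕ) : ℝ :=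
  3 + (2 * (d : ℝ) ^ 2 + 8 * d + 4) * Real.logb 2 M + 2 * ((w : ℝ) - 1) * Real.logb 2 q

theorem LL_nonneg {M : ℕ} (hM : 1 ≤ M) (hq : 1 ≤ q) (hw : 1 ≤ w) : 0 ≤ LL d w q M := by
  have hlq : 0 ≤ Real.logb 2 (q : ℝ) := Real.logb_nonneg (by norm_num) (by exact_mod_cast hq)
  have hlM : 0 ≤ Real.logb 2 (M : ℝ) := Real.logb_nonneg (by norm_num) (by exact_mod_cast hM)
  have hw1 : (0 : ℝ) ≤ (w : ℝ) - 1 := by
    have : (1 : ℝ) ≤ w := by exact_mod_cast hw
    linarith
  unfold LL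
  positivity

theorem LL_eq {M : ℕ} (hM : 1 ≤ M) (hq : 1 ≤ q) (hw : 1 ≤ w) :
    LL d w q M * Real.log 2 =
      Real.log (2 * (((2 * M ^ (d ^ 2 + 4 * d + 2) * q ^ (w - 1) : ℕ) : ℝ)) ^ 2) := by
  have h6 : (0 : ℝ) < Real.log 2 := Real.log_pos (by norm_num)
  have hM' : (0 : ℝ) < M := by exact_mod_cast hM
  have hq' : (0 : ℝ) < q := by exact_mod_cast hq
  have hw' : ((w - 1 : ℕ) : ℝ) = (w : ℝ) - 1 := by
    rw [Nat.cast_sub hw, Nat.cast_one]
  unfold LL
  push_cast
  rw [Real.log_mul (by norm_num) (by positivity), Real.log_pow,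
    Real.log_mul (by positivity) (by positivity), Real.log_mul (by positivity) (by positivity),
    Real.log_pow, Real.log_pow, hw', Real.logb, Real.logb]
  field_simp
  push_cast
  ring

/-- the expected cost -/
noncomputable def mean (μ : Ω → ℝ) (F : Ω → Circuit ι D w q d) (I : Finset ι) : ℝ :=
  ∑ ω, μ ω * ((F ω).circ.cost I : ℝ)

open Classical in
/-- The lower bound for random circuits of networks. -/
theorem net_lower (μ : Ω → ℝ) (hμ : IsProb μ) (F : Ω → Circuit ι D w q d)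
    (P : (∀ i, D i) → Prop) (f : (∀ i, D i) → Bool)
    (hF : ApproximatesOn μ (fun ω => (F ω).eval) P f) (s : ℕ) (I : Finset ι)
    (hs : ∑ ω ∈ univ.filter (fun ω => s < (F ω).circ.cost I), μ ω ≤ 1 / 80)
    (hq : 1 ≤ q) (hw : 1 ≤ w) (K M : ℕ) (hM : 4 * K * (3 * s + 1) + 2 + s ≤ M) (δ : ℝ)
    (h : ∀ i ∈ I, Asks T K δ P f i) (θ : ℝ) (hθ : 0 < θ)
    (hsmall : 1 + 4 * (40 * θ) ^ 2 + 40 * θ * LL d w q M < (53 / 1200 - δ) * Fintype.card T) :
    (I.card : ℝ) * θ ≤ mean μ F I := by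
  have h6 : (0 : ℝ) < Real.log 2 := Real.log_pos (by norm_num)
  obtain ⟨B, hB⟩ : ∃ B, B = 2 * M ^ (d ^ 2 + 4 * d + 2) * q ^ (w - 1) := ⟨_, rfl⟩
  have hBpos : 0 < B := by
    rw [hB]
    have : 0 < M := by omega
    positivity
  obtain ⟨L, hL⟩ : ∃ L : ℝ, L = LL d w q M := ⟨_, rfl⟩
  have hL0 : 0 ≤ L := by
    rw [hL]
    exact LL_nonneg (by omega) hq hw
  have hLB : L * Real.log 2 = Real.log (2 * (B : ℝ) ^ 2) := by
    rw [hL, hB]
    exact LL_eq (by omega) hq hw
  rw [← hL] at hsmall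
  -- every item is read often
  have h1 : ∀ i ∈ I, θ ≤ ∑ ω, μ ω * ((F ω).circ.reads i : ℝ) := by
    intro i hi
    by_contra hlt
    push Not at hlt
    obtain ⟨A, r, Q, R, hA, hQA, hQ, hP, hf⟩ := h i hi
    obtain ⟨y, hy⟩ : ∃ y : {d // d ∈ A} → D i, y = fun v => v.1 := ⟨_, rfl⟩
    have hM' : 4 * Fintype.card {d // d ∈ A} * (3 * s + 1) + 2 + s ≤ M := by
      rw [Fintype.card_coe]
      have : 4 * A.card * (3 * s + 1) ≤ 4 * K * (3 * s + 1) :=
        Nat.mul_le_mul_right _ (Nat.mul_le_mul_left _ hA)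
      omega
    have hsub : ∀ ω, ∃ S : Finset ({d // d ∈ A} → Bool), (F ω).circ.cost I ≤ s →
        S.card ≤ 2 * (2 ^ (4 * ((F ω).circ.reads i) ^ 2) * (2 * B ^ 2) ^ (F ω).circ.reads i) ∧
        ∀ z : (∀ i, D i), (fun u => (F ω).eval (Function.update z i (y u))) ∈ S := by
      intro ω
      by_cases hc : (F ω).circ.cost I ≤ s
      · obtain ⟨S, h1, h2⟩ := Circuit.subfunctions I i hi y s M B hq hM' hB (F ω) hc
        exact ⟨S, fun _ => ⟨h1, h2⟩⟩
      · exact ⟨∅, fun h => absurd h hc⟩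
    choose S hS using hsub
    obtain ⟨bad1, hbad1⟩ : ∃ bad : Finset Ω,
        bad = univ.filter (fun ω => 40 * θ < ((F ω).circ.reads i : ℝ)) := ⟨_, rfl⟩
    obtain ⟨bad2, hbad2⟩ : ∃ bad : Finset Ω,
        bad = univ.filter (fun ω => s < (F ω).circ.cost I) := ⟨_, rfl⟩
    obtain ⟨bad, hbad⟩ : ∃ bad : Finset Ω, bad = bad1 ∪ bad2 := ⟨_, rfl⟩
    have hmark1 : ∑ ω ∈ bad1, μ ω ≤ 1 / 40 := by
      have h2 : ∑ ω ∈ bad1, μ ω * (40 * θ) ≤ ∑ ω, μ ω * ((F ω).circ.reads i : ℝ) := by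
        calc ∑ ω ∈ bad1, μ ω * (40 * θ) ≤ ∑ ω ∈ bad1, μ ω * ((F ω).circ.reads i : ℝ) := by
              apply sum_le_sum
              intro ω hω
              rw [hbad1, mem_filter] at hω
              exact mul_le_mul_of_nonneg_left hω.2.le (hμ.nonneg ω)
          _ ≤ _ := sum_le_sum_of_subset_of_nonneg (subset_univ _) (fun ω _ _ =>
              mul_nonneg (hμ.nonneg ω) (Nat.cast_nonneg _))
      rw [← sum_mul] at h2
      have h3 : (∑ ω ∈ bad1, μ ω) * (40 * θ) < θ := lt_of_le_of_lt h2 hlt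
      nlinarith
    have hunion : ∀ U V : Finset Ω, ∑ ω ∈ U ∪ V, μ ω ≤ ∑ ω ∈ U, μ ω + ∑ ω ∈ V, μ ω := by
      intro U V
      rw [← sum_union_inter]
      have : 0 ≤ ∑ ω ∈ U ∩ V, μ ω := sum_nonneg fun ω _ => hμ.nonneg ω
      linarith
    have hmark : ∑ ω ∈ bad, μ ω ≤ 1 / 40 + 1 / 80 := by
      rw [hbad]
      refine (hunion _ _).trans (add_le_add hmark1 ?_)
      rw [hbad2]
      exact hs
    obtain ⟨G, hG⟩ : ∃ G : Ω → (∀ i, D i) → Bool, ∀ ω x, G ω x =
        if ω ∈ bad then false else (F ω).eval x := ⟨_, fun _ _ => rfl⟩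
    have hGerr : ∀ x, P x → ∑ ω ∈ univ.filter (fun ω => G ω x ≠ f x), μ ω ≤
        1 / 3 + (1 / 40 + 1 / 80) := by
      intro x hx
      have h2 : univ.filter (fun ω => G ω x ≠ f x) ⊆
          univ.filter (fun ω => (F ω).eval x ≠ f x) ∪ bad := by
        intro ω hω
        rw [mem_filter] at hω
        rw [mem_union, mem_filter]
        by_cases hb : ω ∈ bad
        · exact Or.inr hb
        · left
          have h3 := hω.2
          rw [hG, if_neg hb] at h3
          exact ⟨mem_univ _, h3⟩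
      calc ∑ ω ∈ univ.filter (fun ω => G ω x ≠ f x), μ ω
          ≤ ∑ ω ∈ univ.filter (fun ω => (F ω).eval x ≠ f x) ∪ bad, μ ω :=
            sum_le_sum_of_subset_of_nonneg h2 (fun ω _ _ => hμ.nonneg ω)
        _ ≤ ∑ ω ∈ univ.filter (fun ω => (F ω).eval x ≠ f x), μ ω + ∑ ω ∈ bad, μ ω :=
            hunion _ _
        _ ≤ _ := add_le_add (hF x hx) hmark
    have hgood : ∀ ω, ω ∉ bad → ((F ω).circ.reads i : ℝ) ≤ 40 * θ ∧ (F ω).circ.cost I ≤ s := by
      intro ω hω
      rw [hbad, mem_union, hbad1, hbad2, mem_filter, mem_filter] at hω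
      push Not at hω
      exact ⟨hω.1 (mem_univ _), hω.2 (mem_univ _)⟩
    have h2 := gen_err' μ hμ G P f (1 / 3 + (1 / 40 + 1 / 80)) hGerr i y
      (fun ω => if ω ∈ bad then {fun _ => false} else S ω) (fun ω z => by
        by_cases hb : ω ∈ bad
        · rw [if_pos hb, mem_singleton]
          funext v
          rw [hG, if_pos hb]
        · rw [if_neg hb]
          have : (fun v => G ω (Function.update z i (y v))) =
              fun v => (F ω).eval (Function.update z i (y v)) := by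
            funext v
            rw [hG, if_neg hb]
          rw [this]
          exact (hS ω (hgood ω hb).2).2 z) r
      (fun t z => ⟨Q t z, hQA t z⟩) (fun t z z' hz => Subtype.ext (hQ t z z' hz)) R
      (fun t z => by rw [hy]; exact hP t z) δ (by rw [hy]; exact hf)
    have h3 : ∀ ω, μ ω * Real.log ((if ω ∈ bad then {fun _ => false} else S ω : Finset _).card : ℝ) ≤
        μ ω * ((1 + 4 * (40 * θ) ^ 2 + 40 * θ * L) * Real.log 2) := by
      intro ω
      apply mul_le_mul_of_nonneg_left _ (hμ.nonneg ω)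
      by_cases hb : ω ∈ bad
      · rw [if_pos hb, card_singleton, Nat.cast_one, Real.log_one]
        positivity
      · rw [if_neg hb]
        obtain ⟨hr, hc⟩ := hgood ω hb
        obtain ⟨hS1, hS2⟩ := hS ω hc
        have hne : 1 ≤ (S ω).card := card_pos.2 ⟨_, hS2 (R (fun _ => false))⟩
        have h4 : ((S ω).card : ℝ) ≤ 2 * (2 ^ (4 * ((F ω).circ.reads i) ^ 2) *
            (2 * (B : ℝ) ^ 2) ^ (F ω).circ.reads i) := by
          exact_mod_cast hS1
        have h5 := Real.log_le_log (by exact_mod_cast hne) h4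
        have hB' : (0 : ℝ) < B := by exact_mod_cast hBpos
        rw [Real.log_mul (by positivity) (by positivity), Real.log_mul (by positivity) (by positivity),
          Real.log_pow, Real.log_pow, ← hLB] at h5
        push_cast at h5
        refine h5.trans ?_
        have h7 : ((F ω).circ.reads i : ℝ) ^ 2 ≤ (40 * θ) ^ 2 := by
          apply pow_le_pow_left₀ (by positivity)
          linarith
        have h8 : ((F ω).circ.reads i : ℝ) * (L * Real.log 2) ≤ 40 * θ * (L * Real.log 2) :=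
          mul_le_mul_of_nonneg_right hr (by positivity)
        have h9 : 4 * ((F ω).circ.reads i : ℝ) ^ 2 * Real.log 2 ≤
            4 * (40 * θ) ^ 2 * Real.log 2 :=
          mul_le_mul_of_nonneg_right (by linarith) h6.le
        linarith
    have h4 := h2.trans (sum_le_sum fun ω (_ : ω ∈ (univ : Finset Ω)) => h3 ω)
    rw [← sum_mul, hμ.sum_one, one_mul] at h4
    have h5 := le_of_mul_le_mul_right h4 h6
    have h7 : (415 / 1000 - (1 / 3 + (1 / 40 + 1 / 80)) - δ) * (Fintype.card T : ℝ) =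
        (53 / 1200 - δ) * Fintype.card T := by ring
    rw [h7] at h5
    linarith
  have h2 := sum_le_sum h1
  rw [sum_const, nsmul_eq_mul, sum_comm] at h2
  refine h2.trans ?_
  unfold mean
  apply sum_le_sum
  intro ω _
  rw [← mul_sum]
  apply mul_le_mul_of_nonneg_left _ (hμ.nonneg ω)
  exact_mod_cast Circ.sum_reads_le I (F ω).circ

/-- The same with a closed form. -/
theorem net_bound (μ : Ω → ℝ) (hμ : IsProb μ) (F : Ω → Circuit ι D w q d)
    (P : (∀ i, D i) → Prop) (f : (∀ i, D i) → Bool)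
    (hF : ApproximatesOn μ (fun ω => (F ω).eval) P f) (s : ℕ) (I : Finset ι)
    (hs : ∑ ω ∈ univ.filter (fun ω => s < (F ω).circ.cost I), μ ω ≤ 1 / 80)
    (hq : 1 ≤ q) (hw : 1 ≤ w) (K M : ℕ) (hM : 4 * K * (3 * s + 1) + 2 + s ≤ M) (δ : ℝ)
    (hδ : δ ≤ 1 / 50)
    (h : ∀ i ∈ I, Asks T K δ P f i) (hT : 100 ≤ Fintype.card T) :
    (I.card : ℝ) * Fintype.card T ≤ 4000 * (Real.sqrt (Fintype.card T) + LL d w q M) * mean μ F I := by
  obtain ⟨L, hL⟩ : ∃ L : ℝ, L = LL d w q M := ⟨_, rfl⟩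
  have hL0 : 0 ≤ L := by
    rw [hL]
    exact LL_nonneg (by omega) hq hw
  obtain ⟨t, ht⟩ : ∃ t : ℝ, t = Fintype.card T := ⟨_, rfl⟩
  have ht100 : (100 : ℝ) ≤ t := by rw [ht]; exact_mod_cast hT
  obtain ⟨u, hu⟩ : ∃ u : ℝ, u = Real.sqrt t := ⟨_, rfl⟩
  have hu2 : u ^ 2 = t := by rw [hu]; exact Real.sq_sqrt (by linarith)
  have hu10 : 10 ≤ u := by
    rw [hu]
    apply Real.le_sqrt_of_sq_le
    linarith
  obtain ⟨θ, hθ⟩ : ∃ θ : ℝ, θ = t / (4000 * (u + L)) := ⟨_, rfl⟩
  have hθ0 : 0 < θ := by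
    rw [hθ]
    have : 0 < t := by linarith
    positivity
  have hθu : 40 * θ ≤ u / 100 := by
    rw [hθ]
    have : 40 * (t / (4000 * (u + L))) = t / (100 * (u + L)) := by field_simp; ring
    rw [this, div_le_div_iff₀ (by positivity) (by norm_num), ← hu2]
    nlinarith [mul_nonneg (by linarith : (0 : ℝ) ≤ u) hL0]
  have hθL : 40 * θ * L ≤ t / 100 := by
    rw [hθ]
    have : 40 * (t / (4000 * (u + L))) * L = t * L / (100 * (u + L)) := by field_simp; ring
    rw [this, div_le_div_iff₀ (by positivity) (by norm_num)]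
    nlinarith [mul_nonneg (by linarith : (0 : ℝ) ≤ t) (by linarith : (0 : ℝ) ≤ u)]
  have h1 := net_lower μ hμ F P f hF s I hs hq hw K M hM δ h θ hθ0 (by
    rw [← hL, ← ht]
    have h2 : (40 * θ) ^ 2 ≤ (u / 100) ^ 2 :=
      pow_le_pow_left₀ (by positivity) (by linarith) 2
    have h3 : (u / 100) ^ 2 = t / 10000 := by
      rw [div_pow, hu2]
      norm_num
    have h4 : (53 / 1200 - 1 / 50) * t ≤ (53 / 1200 - δ) * t :=
      mul_le_mul_of_nonneg_right (by linarith) (by linarith)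
    linarith)
  rw [← hL, ← ht, ← hu]
  have h2 : (I.card : ℝ) * t = 4000 * (u + L) * (I.card * θ) := by
    rw [hθ]
    field_simp
  rw [h2]
  exact mul_le_mul_of_nonneg_left h1 (by positivity)

/-- The bound for a function or its complement. -/
theorem net_bound_le (μ : Ω → ℝ) (hμ : IsProb μ) (F : Ω → Circuit ι D w q d)
    (P : (∀ i, D i) → Prop) (f : (∀ i, D i) → Bool)
    (hF : ApproximatesOn μ (fun ω => (F ω).eval) P f ∨
      ApproximatesOn μ (fun ω x => !(F ω).eval x) P f) (s : ℕ) (I : Finset ι)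
    (hs : ∑ ω ∈ univ.filter (fun ω => s < (F ω).circ.cost I), μ ω ≤ 1 / 80)
    (hq : 1 ≤ q) (hw : 1 ≤ w) (K M : ℕ) (hM : 4 * K * (3 * s + 1) + 2 + s ≤ M) (δ : ℝ)
    (hδ : δ ≤ 1 / 50)
    (h : ∀ i ∈ I, Asks T K δ P f i) (t : ℝ) (ht : 100 ≤ t) (hT : t ≤ Fintype.card T) :
    (I.card : ℝ) * t ≤ 4000 * (Real.sqrt t + LL d w q M) * mean μ F I := by
  obtain ⟨N, hN⟩ : ∃ N : ℝ, N = Fintype.card T := ⟨_, rfl⟩
  obtain ⟨L, hL⟩ : ∃ L : ℝ, L = LL d w q M := ⟨_, rfl⟩
  have hL0 : 0 ≤ L := by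
    rw [hL]
    exact LL_nonneg (by omega) hq hw
  have hE : 0 ≤ mean μ F I := sum_nonneg fun ω _ => mul_nonneg (hμ.nonneg ω) (Nat.cast_nonneg _)
  have h1 : (I.card : ℝ) * N ≤ 4000 * (Real.sqrt N + L) * mean μ F I := by
    have h100 : 100 ≤ Fintype.card T := by
      have : (100 : ℝ) ≤ Fintype.card T := ht.trans hT
      exact_mod_cast this
    rw [hN, hL]
    rcases hF with hF | hF
    · exact net_bound μ hμ F P f hF s I hs hq hw K M hM δ hδ h h100
    · exact net_bound μ hμ F P (fun x => !f x) (approximates_not hF) s I hs hq hw K M hM δ hδ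
        (fun i hi => asks_not (h i hi)) h100
  rw [← hL]
  rw [← hN] at hT
  have ht0 : 0 < t := by linarith
  have hN0 : 0 < N := by linarith
  have h2 : t / N ≤ 1 := by
    rw [div_le_one hN0]
    exact hT
  have h3 : 0 ≤ t / N := by positivity
  have h4 : Real.sqrt N * (t / N) ≤ Real.sqrt t := by
    have e1 : Real.sqrt N * (t / N) = t / Real.sqrt N := by
      rw [mul_div_assoc', div_eq_div_iff hN0.ne' (Real.sqrt_pos.2 hN0).ne']
      have := Real.mul_self_sqrt hN0.le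
      calc Real.sqrt N * t * Real.sqrt N = t * (Real.sqrt N * Real.sqrt N) := by ring
        _ = t * N := by rw [this]
    rw [e1, div_le_iff₀ (Real.sqrt_pos.2 hN0)]
    have h5 : Real.sqrt t ≤ Real.sqrt N := Real.sqrt_le_sqrt hT
    calc t = Real.sqrt t * Real.sqrt t := (Real.mul_self_sqrt ht0.le).symm
      _ ≤ Real.sqrt t * Real.sqrt N := mul_le_mul_of_nonneg_left h5 (Real.sqrt_nonneg _)
  have h5 := mul_le_mul_of_nonneg_right h1 h3
  have e2 : (I.card : ℝ) * N * (t / N) = I.card * t := by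
    field_simp
  rw [e2] at h5
  refine h5.trans ?_
  calc 4000 * (Real.sqrt N + L) * mean μ F I * (t / N)
      = 4000 * (Real.sqrt N * (t / N) + L * (t / N)) * mean μ F I := by ring
    _ ≤ 4000 * (Real.sqrt t + L) * mean μ F I := by
        apply mul_le_mul_of_nonneg_right _ hE
        apply mul_le_mul_of_nonneg_left _ (by positivity)
        have h6 : L * (t / N) ≤ L := by nlinarith
        linarith

end Pool.Agent.K9h29.NT
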